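import Pool.Agent.Lib.MP_b9add9_lc.AddB.Final

/-!
# No complete disjoint NP-pair relative to additive extensions of an oracle

No proof technique that survives additive (linear) encodings of the oracle, in particular no
algebrizing one, can show that there is a complete disjoint `NP`-pair.
-/

namespace Pool.Agent.Results.MP_b9add9_lc.AdditiveBarrier

open ESY

/-- The multilinear extension `ext` is an additive extension of oracles. Let `E` be any additive
extension, `X` any oracle and `T` any sequence of subexponential time bounds. There is an oracle
`Y` such that, with `A = X ⊕ Y` and `Ã = A ⊕ E A`:

* no disjoint `NP`-pair is complete relative to `B`, neither for many-one nor for Turing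
  reductions, for every oracle `B` with `A` in `P` relative to `B` and `B` in `P` relative to `Ã`;
* every disjoint `NP`-pair `(U, V)` relative to `Ã` has a separator `S` such that for some disjoint
  pair `(C, D)` of `NP` languages relative to the oracle `A` itself, no set that separates `C` from
  `D` can be decided relative to `Ã ⊕ S` within the time bounds `T`, nor can such a set and its
  complement both be accepted nondeterministically within these bounds, nor can the complement
  of `C`. -/
theorem result : AdditiveExt ext ∧ ∀ E : Oracle → Oracle, AdditiveExt E → ∀ (X : Oracle)
    (T : ℕ → ℕ → ℕ), Subexponential T → ∃ Y : Oracle,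
      (∀ B : Oracle, InP B {s | join X Y s = true} →
        InP (join (join X Y) (E (join X Y))) {s | B s = true} →
        (¬ ∃ U V, MComplete B U V) ∧ ¬ ∃ U V, TComplete B U V) ∧
      ∀ U V, NPPair (join (join X Y) (E (join X Y))) U V →
        ∃ S C D, Separator U V S ∧ NPPair (join X Y) C D ∧
          Inseparable T (join (join X Y) (E (join X Y))) S C D ∧
          ¬ InNTime T (join (join (join X Y) (E (join X Y))) S) Cᶜ :=
  ⟨ESY.Alg.Gen.additiveExt_ext, ESY.Alg.AddB.final⟩

end Pool.Agent.Results.MP_b9add9_lc.AdditiveBarrier
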