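import Pool.Agent.Lib.MP_b9add9_lc.AC.Main

/-!
# A complete disjoint NP-pair relative to additive extensions of oracles, with NP different from coNP

No proof technique that survives additive (linear) encodings of the oracle, in particular no
algebrizing one, can derive from `NP ≠ coNP`, or from the non-existence of optimal proof systems,
that there is no complete disjoint `NP`-pair.
-/

namespace Pool.Agent.Results.MP_b9add9_lc.AdditiveComplete

open ESY

/-- The multilinear extension `ext` is an additive extension of oracles. For every additive
extension `E`, every oracle `X` and all subexponential time bounds `T` there are an oracle `Y` and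
sets `U`, `V`, `L` such that, with `A = X ⊕ Y` and `Ã = A ⊕ E A`:

* every disjoint `NP`-pair relative to `Ã` reduces to `(U, V)` by a function computable in
  polynomial time with the oracle `A`; `NP` relative to `Ã` is contained in `P` relative to `A ⊕ S`
  for every separator `S` of `(U, V)`, and in `UP` relative to `A`;
* relative to every oracle `B` with `A` in `P` relative to `B` and `B` in `P` relative to `Ã`, the
  pair `(U, V)` is a complete disjoint `NP`-pair (its members are not empty), it is `NP`-hard, `NP`
  is contained in `UP`, and `L` is in `NP`, but its complement is not accepted by nondeterministic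
  machines within the time bounds `T` and has no proof system that is optimal up to `T`. -/
theorem result : AdditiveExt ext ∧ ∀ E : Oracle → Oracle, AdditiveExt E → ∀ (X : Oracle)
    (T : ℕ → ℕ → ℕ), Subexponential T → ∃ (Y : Oracle) (U V L : Set (List Bool)),
      (∀ C D, NPPair (join (join X Y) (E (join X Y))) C D →
        MReduces poly (join X Y) C D U V) ∧
      (∀ S, Separator U V S → ∀ L', InNP (join (join X Y) (E (join X Y))) L' →
        InP (join (join X Y) S) L') ∧
      (∀ L', InNP (join (join X Y) (E (join X Y))) L' → InUPk 1 (join X Y) L') ∧
      ∀ B : Oracle, InP B {s | join X Y s = true} →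
        InP (join (join X Y) (E (join X Y))) {s | B s = true} →
        MComplete B U V ∧ DisjointNPPair B U V ∧ NPHard B U V ∧
        (∀ L', InNP B L' → InUPk 1 B L') ∧ InNP B L ∧ ¬ InNTime T B Lᶜ ∧
        NoOptimal T B Lᶜ :=
  ⟨ESY.Alg.Gen.additiveExt_ext, ESY.AC.final⟩

end Pool.Agent.Results.MP_b9add9_lc.AdditiveComplete
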