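import Pool.Agent.Lib.MP_b9add9_lc.RT.Main

/-!
# No complete disjoint NP-pair relative to a random oracle, many-one or Turing with few surprises
-/

namespace Pool.Agent.Results.MP_b9add9_lc.RandomTuring

open Pool.Agent.DNP MeasureTheory
open ESY (Oracle join coin Subexponential poly)

/-- Relative to `X ⊕ R`, for every `X` and almost every `R`: for every disjoint `NP`-pair `(A, B)`
and every `d` there is a disjoint pair of tally `NP` sets which does not reduce to `(A, B)` by any
function computable within the subexponential bounds `T`, nor by Turing reductions within these
bounds with at most `n ^ d + d` surprises, that is, such that at most `n ^ d + d` of the questions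
outside `A ∪ B` are answered otherwise than predicted (any number of questions may be asked). -/
theorem result (X : Oracle) (T : ℕ → ℕ → ℕ) (hT : Subexponential T) :
    ∀ᵐ R ∂coin, ∀ A B, DisjointNPPair (join X R) A B → ∀ d : ℕ,
      ∃ A' B', DisjointNPPair (join X R) A' B' ∧ Tally A' ∧ Tally B' ∧
        ¬ ReducesTo T (join X R) A' B' A B ∧
        ¬ TReducesTo T (poly d) (join X R) A' B' A B :=
  RT.main X T hT

end Pool.Agent.Results.MP_b9add9_lc.RandomTuring
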