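import Pool.Agent.Lib.MP_b9add9_lc.PHF.FinalUni

/-!
# An oracle with `NP = UP`, an infinite polynomial hierarchy, and without complete disjoint NP-pairs
-/

namespace Pool.Agent.Results.MP_b9add9_lc.UPNoComplete

open ESY

/-- Let `T` be any sequence of subexponential time bounds and `k` any sequence of bounds with
`k c n = o(n)` for each `c`. There is an oracle `O` relative to which

* every `NP` language is accepted by a nondeterministic polynomial-time machine with at most one
  accepting witness for each input (`NP = UP`);
* the polynomial hierarchy is infinite;
* no disjoint `NP`-pair is complete for many-one polynomial-time reductions;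
* for every disjoint `NP`-pair `(A, B)` there is a disjoint `NP`-pair `(C, D)` that is reducible to
  `(A, B)` neither by functions computable within the time bounds `T`, nor by Turing reductions
  that run within the time bounds `T` and ask the separator at most `k c n` questions. -/
theorem result (T : ℕ → ℕ → ℕ) (hT : Subexponential T) (k : ℕ → ℕ → ℕ)
    (hk : ∀ c j : ℕ, ∀ᶠ n in Filter.atTop, j * k c n ≤ n) :
    ∃ O : Oracle, (∀ L, InNP O L → InUPk 1 O L) ∧ PHInfinite O ∧ (¬ ∃ A B, MComplete O A B) ∧
      ∀ A B, NPPair O A B → ∃ C D, NPPair O C D ∧
        ¬ MReduces T O C D A B ∧ ¬ QReduces T k O C D A B :=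
  ESY.PHF.mainUni T hT k hk

end Pool.Agent.Results.MP_b9add9_lc.UPNoComplete
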